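import Pool.Agent.H251.V9

/-!
# MP_cdcde1_an, Q1: not every Banach space is isomorphic to some `Y** / Y`

For a set `B` of branches of the dyadic tree `T` let `X_B` be the closed linear span in
`ℓ_∞(T)` of the unit vectors and of the indicator functions of the branches `b ∈ B`.

* (Reduction) If `Y** / Y` is isomorphic to `X_B` for a Banach space `Y`, then `Y` has a
  separable closed subspace `Y₀` such that `Y₀** / Y₀` is isomorphic to `X_B`.
* (Counting) There are only continuum many separable Banach spaces up to isometry, each `X_B` is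
  isomorphic to at most continuum many `X_{B'}`, and there are more than continuum many sets `B`.
-/

set_option maxSynthPendingDepth 3

open Set Filter Topology

namespace Pool.Agent.Results.MP_cdcde1_an.NotBidualQuotient

universe u

/-- The bidual `Y**` of the normed space `Y`, with its usual norm. -/
def Bidual (𝕜 : Type) [RCLike 𝕜] (Y : Type u) [NormedAddCommGroup Y] [NormedSpace 𝕜 Y] :
    Type u :=
  StrongDual 𝕜 (StrongDual 𝕜 Y)

noncomputable instance (𝕜 : Type) [RCLike 𝕜] (Y : Type u) [NormedAddCommGroup Y]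
    [NormedSpace 𝕜 Y] : NormedAddCommGroup (Bidual 𝕜 Y) :=
  (ContinuousLinearMap.toNormedAddCommGroup : NormedAddCommGroup (StrongDual 𝕜 Y →L[𝕜] 𝕜))

noncomputable instance (𝕜 : Type) [RCLike 𝕜] (Y : Type u) [NormedAddCommGroup Y]
    [NormedSpace 𝕜 Y] : NormedSpace 𝕜 (Bidual 𝕜 Y) :=
  (ContinuousLinearMap.toNormedSpace : NormedSpace 𝕜 (StrongDual 𝕜 Y →L[𝕜] 𝕜))

/-- The canonical embedding of `Y` into `Y**`, as a linear map: `y` goes to `f ↦ f y`. -/
noncomputable def canon (𝕜 : Type) [RCLike 𝕜] (Y : Type u) [NormedAddCommGroup Y]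
    [NormedSpace 𝕜 Y] : Y →ₗ[𝕜] Bidual 𝕜 Y :=
  (NormedSpace.inclusionInDoubleDual 𝕜 Y).toLinearMap

/-- Over the real or the complex field `𝕜` there is a Banach space `X` such that for no Banach
space `Y` the quotient of the bidual of `Y` by the canonical image of `Y` is isomorphic to `X`. -/
theorem result (𝕜 : Type) [RCLike 𝕜] :
    ∃ (X : Type) (_ : NormedAddCommGroup X) (_ : NormedSpace 𝕜 X) (_ : CompleteSpace X),
      ∀ (Y : Type u) [NormedAddCommGroup Y] [NormedSpace 𝕜 Y] [CompleteSpace Y],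
        IsEmpty ((Bidual 𝕜 Y ⧸ LinearMap.range (canon 𝕜 Y)) ≃L[𝕜] X) := by
  obtain ⟨B, hB⟩ := BidQ.exists_not_rep.{u} (𝕜 := 𝕜)
  refine ⟨BidQ.XB 𝕜 B, inferInstance, inferInstance, inferInstance, ?_⟩
  intro Y _ _ _
  refine ⟨fun e => hB Y ?_⟩
  let q₁ : Bidual 𝕜 Y →L[𝕜] BidQ.XB 𝕜 B :=
    (e : _ →L[𝕜] BidQ.XB 𝕜 B).comp (LinearMap.range (canon 𝕜 Y)).mkQL
  have h1 : Function.Surjective q₁ := e.surjective.comp (Submodule.mkQ_surjective _)
  have h2 : ∀ w : Bidual 𝕜 Y, q₁ w = 0 ↔ w ∈ range (canon 𝕜 Y) := by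
    intro w
    show e (Submodule.Quotient.mk w) = 0 ↔ _
    rw [map_eq_zero_iff e e.injective, Submodule.Quotient.mk_eq_zero]
    exact Iff.rfl
  let q₂ : StrongDual 𝕜 (StrongDual 𝕜 Y) →L[𝕜] BidQ.XB 𝕜 B := q₁
  exact ⟨q₂, h1, h2⟩

end Pool.Agent.Results.MP_cdcde1_an.NotBidualQuotient
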